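import Pool.Agent.Lib.MP_2d002d_gt.Interfaces
import Pool.Agent.Lib.MP_2d002d_gt.Basic

/-!
# MP_2d002d_gt: module M2 (helper1): `DensM` and `DensMEven` from `Dens`
-/

set_option autoImplicit false

open MeasureTheory Set Filter Topology
open scoped ContDiff

namespace Pool.Agent.Lib.MP_2d002d_gt
namespace H1

/-- the one-dimensional change of variables -/
lemma exists_tau (β : ℝ → ℝ) (hβ : ContDiff ℝ ∞ β) (δ : ℝ) (hδ : 0 < δ) (hb : ∀ x, δ ≤ β x) :
    ∃ τ : ℝ ≃ₜ ℝ, ContDiff ℝ ∞ τ ∧ ContDiff ℝ ∞ τ.symm ∧ ∀ x, HasDerivAt τ (√(β x)) x := by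
  set s : ℝ → ℝ := fun x => √(β x) with hs
  have hs0 : ∀ x, √δ ≤ s x := fun x => Real.sqrt_le_sqrt (hb x)
  have hd0 : 0 < √δ := Real.sqrt_pos.2 hδ
  have hpos : ∀ x, 0 < s x := fun x => hd0.trans_le (hs0 x)
  have hsc : ContDiff ℝ ∞ s := hβ.sqrt fun x => (hδ.trans_le (hb x)).ne'
  set t : ℝ → ℝ := fun x => ∫ y in (0 : ℝ)..x, s y with ht
  have hder : ∀ x, HasDerivAt t (s x) x := fun x =>
    (hsc.continuous.integral_hasStrictDerivAt 0 x).hasDerivAt
  have hdt : deriv t = s := funext fun x => (hder x).deriv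
  have htc : ContDiff ℝ ∞ t := by
    rw [contDiff_infty_iff_deriv]
    exact ⟨fun x => (hder x).differentiableAt, by rw [hdt]; exact hsc⟩
  have hmono : StrictMono t := strictMono_of_deriv_pos fun x => by rw [hdt]; exact hpos x
  have hmono2 : Monotone fun x => t x - √δ * x := by
    have hd2 : ∀ x, HasDerivAt (fun x => t x - √δ * x) (s x - √δ) x := by
      intro x
      have h0 := (hasDerivAt_id x).const_mul (√δ)
      rw [mul_one] at h0
      exact (hder x).fun_sub h0
    apply monotone_of_deriv_nonneg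
    · exact fun x => (hd2 x).differentiableAt
    · intro x
      rw [(hd2 x).deriv]
      linarith [hs0 x]
  have ht0 : t 0 = 0 := by simp [ht]
  have htop : Tendsto t atTop atTop := by
    have h1 : Tendsto (fun x : ℝ => √δ * x) atTop atTop := tendsto_id.const_mul_atTop hd0
    refine tendsto_atTop_mono' atTop ?_ h1
    filter_upwards [eventually_ge_atTop (0 : ℝ)] with x hx
    have := hmono2 hx
    simp only [ht0] at this
    linarith
  have hbot : Tendsto t atBot atBot := by
    have h1 : Tendsto (fun x : ℝ => √δ * x) atBot atBot := tendsto_id.const_mul_atBot hd0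
    refine tendsto_atBot_mono' atBot ?_ h1
    filter_upwards [eventually_le_atBot (0 : ℝ)] with x hx
    have := hmono2 hx
    simp only [ht0] at this
    linarith
  have hsurj : Function.Surjective t := htc.continuous.surjective htop hbot
  set τ : ℝ ≃ₜ ℝ := (StrictMono.orderIsoOfSurjective t hmono hsurj).toHomeomorph with hτ
  have hτt : (τ : ℝ → ℝ) = t := rfl
  have h1 : ContDiff ℝ ∞ τ := by rw [hτt]; exact htc
  have h2 : ∀ x, HasDerivAt τ (s x) x := by rw [hτt]; exact hder
  exact ⟨τ, h1, τ.contDiff_symm_deriv (fun x => (hpos x).ne') h2 h1, h2⟩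

lemma det_diag {n : ℕ} (c : Fin n → ℝ) :
    (ContinuousLinearMap.pi fun j => c j • (ContinuousLinearMap.proj j : (Fin n → ℝ) →L[ℝ] ℝ)).det
      = ∏ j, c j := by
  have e : ((ContinuousLinearMap.pi fun j => c j • (ContinuousLinearMap.proj j :
      (Fin n → ℝ) →L[ℝ] ℝ) : (Fin n → ℝ) →L[ℝ] (Fin n → ℝ)) : (Fin n → ℝ) →ₗ[ℝ] (Fin n → ℝ))
      = Matrix.toLin' (Matrix.diagonal c) := by
    ext i j
    simp [Matrix.mulVec_diagonal, Pi.single_apply]
  rw [ContinuousLinearMap.det, e, LinearMap.det_toLin', Matrix.det_diagonal]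

section
variable {n : ℕ} {τ : Fin n → ℝ ≃ₜ ℝ} {s : Fin n → ℝ → ℝ}

/-- the product change of variables -/
noncomputable def TT (τ : Fin n → ℝ ≃ₜ ℝ) : (Fin n → ℝ) ≃ₜ (Fin n → ℝ) :=
  Homeomorph.piCongrRight τ

lemma TT_apply (x : Fin n → ℝ) (j : Fin n) : TT τ x j = τ j (x j) := rfl

lemma TT_fderiv (h : ∀ j x, HasDerivAt (τ j) (s j x) x) (x : Fin n → ℝ) :
    HasFDerivAt (TT τ) (ContinuousLinearMap.pi fun j => s j (x j) •
      (ContinuousLinearMap.proj j : (Fin n → ℝ) →L[ℝ] ℝ)) x := by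
  rw [hasFDerivAt_pi]
  intro j
  exact (h j (x j)).comp_hasFDerivAt x
    ((ContinuousLinearMap.proj j : (Fin n → ℝ) →L[ℝ] ℝ).hasFDerivAt)

lemma TT_contDiff (h : ∀ j, ContDiff ℝ ∞ (τ j)) : ContDiff ℝ ∞ (TT τ) := by
  rw [contDiff_pi]
  intro j
  exact (h j).comp (contDiff_apply ℝ ℝ j)

lemma TT_symm_contDiff (h : ∀ j, ContDiff ℝ ∞ (τ j).symm) : ContDiff ℝ ∞ (TT τ).symm := by
  rw [contDiff_pi]
  intro j
  exact (h j).comp (contDiff_apply ℝ ℝ j)

lemma TT_integral (h : ∀ j x, HasDerivAt (τ j) (s j x) x) (hs : ∀ j x, 0 ≤ s j x)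
    (g : (Fin n → ℝ) → ℝ) :
    ∫ y, g y = ∫ x, (∏ j, s j (x j)) * g (TT τ x) := by
  have h1 := integral_image_eq_integral_abs_det_fderiv_smul (volume : Measure (Fin n → ℝ))
    MeasurableSet.univ (fun x _ => (TT_fderiv h x).hasFDerivWithinAt)
    ((TT τ).injective.injOn) g
  rw [image_univ, (TT τ).surjective.range_eq, setIntegral_univ, setIntegral_univ] at h1
  rw [h1]
  refine integral_congr_ae (Filter.Eventually.of_forall fun x => ?_)
  simp only [smul_eq_mul]
  rw [det_diag, abs_of_nonneg (Finset.prod_nonneg fun j _ => hs j (x j))]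

lemma TT_integrable (h : ∀ j x, HasDerivAt (τ j) (s j x) x) (hs : ∀ j x, 0 ≤ s j x)
    (g : (Fin n → ℝ) → ℝ) :
    Integrable g ↔ Integrable fun x => (∏ j, s j (x j)) * g (TT τ x) := by
  have h1 := integrableOn_image_iff_integrableOn_abs_det_fderiv_smul
    (volume : Measure (Fin n → ℝ))
    MeasurableSet.univ (fun x _ => (TT_fderiv h x).hasFDerivWithinAt)
    ((TT τ).injective.injOn) g
  rw [image_univ, (TT τ).surjective.range_eq, integrableOn_univ, integrableOn_univ] at h1
  rw [h1]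
  refine integrable_congr (Filter.Eventually.of_forall fun x => ?_)
  simp only [smul_eq_mul]
  rw [det_diag, abs_of_nonneg (Finset.prod_nonneg fun j _ => hs j (x j))]

/-- partial derivatives of `f ∘ T` -/
lemma pd_TT (h : ∀ j x, HasDerivAt (τ j) (s j x) x) {f : (Fin n → ℝ) → ℝ}
    (hf : Differentiable ℝ f) (i : Fin n) (x : Fin n → ℝ) :
    pd i (fun x => f (TT τ x)) x = s i (x i) * pd i f (TT τ x) := by
  unfold pd
  have h1 : HasFDerivAt (fun x => f (TT τ x)) _ x :=
    (hf (TT τ x)).hasFDerivAt.comp x (TT_fderiv h x)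
  rw [h1.fderiv, ContinuousLinearMap.comp_apply]
  have e : (ContinuousLinearMap.pi fun j => s j (x j) •
      (ContinuousLinearMap.proj j : (Fin n → ℝ) →L[ℝ] ℝ)) (Pi.single i 1)
      = s i (x i) • (Pi.single i 1 : Fin n → ℝ) := by
    ext j
    simp only [ContinuousLinearMap.coe_pi', smul_apply,
      ContinuousLinearMap.proj_apply, Pi.single_apply, smul_eq_mul, Pi.smul_apply]
    split_ifs with hj
    · rw [hj]
    · simp
  rw [e, map_smul, smul_eq_mul]

end

theorem densM (hD : Dens) : DensM := by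
  intro n Ψ h b hΨ hb hδ hint hh hh2 hmean ε hε
  obtain ⟨δ, hδ, hbδ⟩ := hδ
  choose τ hτ1 hτ2 hτ3 using fun i => exists_tau (b i) (hb i) δ hδ (hbδ i)
  have hbpos : ∀ i x, 0 < b i x := fun i x => hδ.trans_le (hbδ i x)
  set s : Fin n → ℝ → ℝ := fun i x => √(b i x) with hs
  have hspos : ∀ i x, 0 < s i x := fun i x => Real.sqrt_pos.2 (hbpos i x)
  have hss : ∀ i x, s i x * s i x = b i x := fun i x => Real.mul_self_sqrt (hbpos i x).le
  set T := TT τ with hT
  have hTc : ContDiff ℝ ∞ T := TT_contDiff hτ1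
  have hTs : ContDiff ℝ ∞ T.symm := TT_symm_contDiff hτ2
  -- the log terms
  set l : (Fin n → ℝ) → ℝ := fun x => ∑ j, Real.log (b j (x j)) / 2 with hl
  have hlj : ∀ j, ContDiff ℝ ∞ (fun x : ℝ => Real.log (b j x) / 2) := by
    intro j
    exact ((hb j).log fun x => (hbpos j x).ne').div_const 2
  have hlc : ContDiff ℝ ∞ l := ContDiff.sum fun j _ => contDiff_coord (hlj j) j
  set Ψ' : (Fin n → ℝ) → ℝ := fun y => Ψ (T.symm y) + l (T.symm y) with hΨ'
  have hΨ'c : ContDiff ℝ ∞ Ψ' := (hΨ.comp hTs).add (hlc.comp hTs)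
  have hΨT : ∀ x, Ψ' (T x) = Ψ x + l x := by
    intro x
    simp only [hΨ', Homeomorph.symm_apply_apply]
  have hexp : ∀ x, (∏ j, s j (x j)) * Real.exp (-Ψ' (T x)) = Real.exp (-Ψ x) := by
    intro x
    rw [hΨT, neg_add, Real.exp_add]
    have e : Real.exp (-l x) = ∏ j, (s j (x j))⁻¹ := by
      rw [hl, ← Finset.sum_neg_distrib, Real.exp_sum]
      refine Finset.prod_congr rfl fun j _ => ?_
      rw [Real.exp_neg]
      congr 1
      rw [← Real.log_sqrt (hbpos j (x j)).le, Real.exp_log (hspos j (x j))]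
    rw [e, mul_comm (Real.exp (-Ψ x)), ← mul_assoc, ← Finset.prod_mul_distrib]
    rw [Finset.prod_eq_one fun j _ => mul_inv_cancel₀ (hspos j (x j)).ne', one_mul]
  have hs0 : ∀ j x, 0 ≤ s j x := fun j x => (hspos j x).le
  have hch : ∀ g : (Fin n → ℝ) → ℝ,
      ∫ y, g y * Real.exp (-Ψ' y) = ∫ x, g (T x) * Real.exp (-Ψ x) := by
    intro g
    rw [TT_integral hτ3 hs0]
    refine integral_congr_ae (Filter.Eventually.of_forall fun x => ?_)
    simp only
    rw [← hexp x]
    ring
  have hchi : ∀ g : (Fin n → ℝ) → ℝ,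
      Integrable (fun y => g y * Real.exp (-Ψ' y)) ↔
        Integrable (fun x => g (T x) * Real.exp (-Ψ x)) := by
    intro g
    rw [TT_integrable hτ3 hs0]
    refine integrable_congr (Filter.Eventually.of_forall fun x => ?_)
    simp only
    rw [← hexp x]
    ring
  have i1 : Integrable (fun y => Real.exp (-Ψ' y)) := by
    have := (hchi fun _ => 1).2 (by simpa using hint)
    simpa using this
  have i2 : Integrable (fun y => h (T.symm y) ^ 2 * Real.exp (-Ψ' y)) := by
    have := (hchi fun y => h (T.symm y) ^ 2).2 (by simpa using hh2)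
    simpa using this
  have i3 : ∫ y, h (T.symm y) * Real.exp (-Ψ' y) = 0 := by
    have := hch fun y => h (T.symm y)
    rw [this]
    simpa using hmean
  obtain ⟨u', hu'c, hu's, hu'e⟩ := hD n Ψ' (fun y => h (T.symm y)) hΨ'c i1
    (hh.comp T.symm.continuous) i2 i3 ε hε
  refine ⟨fun x => u' (T x), hu'c.comp hTc, hu's.comp_homeomorph T, ?_⟩
  -- the operator
  have hop : ∀ x, dv Ψ (fld b fun x => u' (T x)) x = dv Ψ' (fun i => pd i u') (T x) := by
    intro x
    unfold dv
    refine Finset.sum_congr rfl fun i _ => ?_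
    have hu'd : Differentiable ℝ u' := hu'c.differentiable (by simp)
    have hpu : ContDiff ℝ ∞ (pd i u') := contDiff_pd hu'c i
    have e1 : ∀ x, fld b (fun x => u' (T x)) i x = pd i u' (T x) * (s i (x i))⁻¹ := by
      intro x
      unfold fld
      have h0 : pd i (fun x => u' (T x)) x = s i (x i) * pd i u' (T x) := pd_TT hτ3 hu'd i x
      rw [h0, ← hss i (x i)]
      have := (hspos i (x i)).ne'
      field_simp
    have hsd : ∀ x, HasDerivAt (s i) (deriv (b i) x / (2 * s i x)) x := by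
      intro x
      have h1 : HasDerivAt (b i) (deriv (b i) x) x :=
        ((hb i).differentiable (by simp) x).hasDerivAt
      exact h1.sqrt (hbpos i x).ne'
    have hsc : ContDiff ℝ ∞ (s i) := (hb i).sqrt fun x => (hbpos i x).ne'
    have hsi : ∀ x, HasDerivAt (fun x => (s i x)⁻¹)
        (-(deriv (b i) x / (2 * s i x)) / (s i x) ^ 2) x := fun x =>
      (hsd x).inv (hspos i x).ne'
    have e2 : pd i (fld b (fun x => u' (T x)) i) x
        = pd i (pd i u') (T x) + pd i u' (T x) *
          (-(deriv (b i) (x i) / (2 * s i (x i))) / (s i (x i)) ^ 2) := by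
      have d1 : DifferentiableAt ℝ (fun x => pd i u' (T x)) x := diffAt (hpu.comp hTc) x
      have d2 : DifferentiableAt ℝ (fun x : Fin n → ℝ => (s i (x i))⁻¹) x :=
        diffAt (contDiff_coord (hsc.inv fun x => (hspos i x).ne') i) x
      rw [pd_congr e1 i x, pd_mul d1 d2 i,
        pd_TT hτ3 (hpu.differentiable (by simp)) i x,
        pd_coord (φ := fun x => (s i x)⁻¹) (fun x => (hsi x).differentiableAt) i i x,
        if_pos rfl, (hsi (x i)).deriv]
      have := (hspos i (x i)).ne'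
      field_simp
      ring
    have e3 : pd i Ψ x = s i (x i) * pd i Ψ' (T x) - deriv (b i) (x i) / b i (x i) / 2 := by
      have h1 : ∀ x, Ψ x = Ψ' (T x) - l x := fun x => by rw [hΨT]; ring
      have d1 : DifferentiableAt ℝ (fun x => Ψ' (T x)) x := diffAt (hΨ'c.comp hTc) x
      rw [pd_congr h1 i x, pd_sub d1 (diffAt hlc x),
        pd_TT hτ3 (hΨ'c.differentiable (by simp)) i x]
      congr 1
      rw [hl, pd_sum _ (fun j _ => diffAt (contDiff_coord (hlj j) j) x) i,
        Finset.sum_eq_single i]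
      · rw [pd_coord (φ := fun x => Real.log (b i x) / 2)
          ((hlj i).differentiable (by simp)) i i x, if_pos rfl]
        have h2 : HasDerivAt (fun x => Real.log (b i x) / 2)
            (deriv (b i) (x i) / b i (x i) / 2) (x i) :=
          ((((hb i).differentiable (by simp) (x i)).hasDerivAt).log
            (hbpos i (x i)).ne').div_const 2
        exact h2.deriv
      · intro j _ hj
        rw [pd_coord (φ := fun x => Real.log (b j x) / 2)
          ((hlj j).differentiable (by simp)) i j x, if_neg (Ne.symm hj)]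
      · intro hi
        exact absurd (Finset.mem_univ i) hi
    rw [e2, e1 x, e3, ← hss i (x i)]
    have := (hspos i (x i)).ne'
    field_simp
    ring
  have e : ∫ x, (dv Ψ (fld b fun x => u' (T x)) x - h x) ^ 2 * Real.exp (-Ψ x)
      = ∫ y, (dv Ψ' (fun i => pd i u') y - h (T.symm y)) ^ 2 * Real.exp (-Ψ' y) := by
    rw [hch fun y => (dv Ψ' (fun i => pd i u') y - h (T.symm y)) ^ 2]
    refine integral_congr_ae (Filter.Eventually.of_forall fun x => ?_)
    simp only [Homeomorph.symm_apply_apply]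
    rw [hop x]
  rw [e]
  exact hu'e

lemma fld_neg {n : ℕ} {b : Fin n → ℝ → ℝ} (hb : ∀ i x, b i (-x) = b i x)
    (u : (Fin n → ℝ) → ℝ) (i : Fin n) (x : Fin n → ℝ) :
    fld b (fun y => u (-y)) i x = - fld b u i (-x) := by
  unfold fld
  rw [pd_comp_neg]
  have : b i ((-x) i) = b i (x i) := by rw [Pi.neg_apply, hb]
  rw [this, neg_div]

lemma dv_neg {n : ℕ} {Ψ : (Fin n → ℝ) → ℝ} {b : Fin n → ℝ → ℝ} (hΨ : ∀ x, Ψ (-x) = Ψ x)
    (hb : ∀ i x, b i (-x) = b i x) (u : (Fin n → ℝ) → ℝ) (x : Fin n → ℝ) :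
    dv Ψ (fld b fun y => u (-y)) x = dv Ψ (fld b u) (-x) := by
  unfold dv
  refine Finset.sum_congr rfl fun i _ => ?_
  have h1 : pd i (fld b (fun y => u (-y)) i) x = pd i (fld b u i) (-x) := by
    rw [pd_congr (fun y => fld_neg hb u i y) i x, pd_neg, pd_comp_neg, neg_neg]
  have h2 : pd i Ψ x = - pd i Ψ (-x) := by
    conv_lhs => rw [pd_congr (fun y => (hΨ y).symm) i x]
    rw [pd_comp_neg]
  rw [h1, h2, fld_neg hb u i x]
  ring

lemma contDiff_fld {n : ℕ} {b : Fin n → ℝ → ℝ} (hb : ∀ i, ContDiff ℝ ∞ (b i))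
    (hpos : ∀ i x, 0 < b i x) {u : (Fin n → ℝ) → ℝ} (hu : ContDiff ℝ ∞ u) (i : Fin n) :
    ContDiff ℝ ∞ (fld b u i) := by
  unfold fld
  exact (contDiff_pd hu i).div (contDiff_coord (hb i) i) fun x => (hpos i (x i)).ne'

lemma hasCompactSupport_fld {n : ℕ} {b : Fin n → ℝ → ℝ} {u : (Fin n → ℝ) → ℝ}
    (hu : HasCompactSupport u) (i : Fin n) : HasCompactSupport (fld b u i) := by
  have h := hasCompactSupport_pd hu i
  have e : fld b u i = fun x => pd i u x * (b i (x i))⁻¹ := by
    funext x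
    rw [fld, div_eq_mul_inv]
  rw [e]
  exact h.mul_right

lemma continuous_dv {n : ℕ} {Ψ : (Fin n → ℝ) → ℝ} {X : Fin n → (Fin n → ℝ) → ℝ}
    (hΨ : ContDiff ℝ ∞ Ψ) (hX : ∀ i, ContDiff ℝ ∞ (X i)) : Continuous (dv Ψ X) := by
  unfold dv
  refine continuous_finset_sum _ fun i _ => ?_
  exact (continuous_pd (contDiff_one (hX i)) i).sub
    ((continuous_pd (contDiff_one hΨ) i).mul (hX i).continuous)

lemma hasCompactSupport_dv {n : ℕ} {Ψ : (Fin n → ℝ) → ℝ} {X : Fin n → (Fin n → ℝ) → ℝ}
    (hX : ∀ i, HasCompactSupport (X i)) : HasCompactSupport (dv Ψ X) := by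
  have h : ∀ s : Finset (Fin n), HasCompactSupport
      (fun x => ∑ i ∈ s, (pd i (X i) x - pd i Ψ x * X i x)) := by
    classical
    intro s
    induction s using Finset.induction_on with
    | empty =>
      simp only [Finset.sum_empty]
      exact HasCompactSupport.zero
    | insert a s ha ih =>
      have e : (fun x => ∑ i ∈ insert a s, (pd i (X i) x - pd i Ψ x * X i x))
          = fun x => (pd a (X a) x - pd a Ψ x * X a x)
            + ∑ i ∈ s, (pd i (X i) x - pd i Ψ x * X i x) := by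
        funext x
        rw [Finset.sum_insert ha]
      rw [e]
      exact ((hasCompactSupport_pd (hX a) a).sub ((hX a).mul_left)).add ih
  exact h Finset.univ

theorem densMEven (hD : DensM) : DensMEven := by
  intro n Ψ h b hΨ hb hδ hΨe hhe hbe hint hh hh2 hmean ε hε
  obtain ⟨u, huc, hus, hue⟩ := hD n Ψ h b hΨ hb hδ hint hh hh2 hmean ε hε
  obtain ⟨δ, hδ, hbδ⟩ := hδ
  have hbpos : ∀ i x, 0 < b i x := fun i x => hδ.trans_le (hbδ i x)
  have hnegc : ContDiff ℝ ∞ (fun y : Fin n → ℝ => u (-y)) := huc.comp contDiff_neg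
  refine ⟨fun x => (1 / 2) * (u x + u (-x)), contDiff_const.mul (huc.add hnegc), ?_, ?_, ?_⟩
  · exact (hus.add (hus.comp_homeomorph (Homeomorph.neg _))).mul_left
  · intro x
    simp only [neg_neg]
    ring
  · set D : (Fin n → ℝ) → ℝ := dv Ψ (fld b u) with hDdef
    have hfc : ∀ i, ContDiff ℝ ∞ (fld b u i) := contDiff_fld hb hbpos huc
    have hfc2 : ∀ i, ContDiff ℝ ∞ (fld b (fun y => u (-y)) i) := contDiff_fld hb hbpos hnegc
    have hDc : Continuous D := continuous_dv hΨ hfc
    have hDs : HasCompactSupport D := hasCompactSupport_dv (hasCompactSupport_fld hus)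
    have e1 : ∀ i x, fld b (fun x => (1 / 2) * (u x + u (-x))) i x
        = (1 / 2) * (fld b u i x + fld b (fun y => u (-y)) i x) := by
      intro i x
      unfold fld
      have d1 := diffAt huc x
      have d2 : DifferentiableAt ℝ (fun y : Fin n → ℝ => u (-y)) x := diffAt hnegc x
      rw [pd_const_mul (d1.fun_add d2), pd_add d1 d2]
      ring
    have e2 : ∀ x, dv Ψ (fld b fun x => (1 / 2) * (u x + u (-x))) x = (1 / 2) * (D x + D (-x)) := by
      intro x
      rw [hDdef, ← dv_neg hΨe hbe u x]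
      unfold dv
      rw [← Finset.sum_add_distrib, Finset.mul_sum]
      refine Finset.sum_congr rfl fun i _ => ?_
      have d1 := diffAt (hfc i) x
      have d2 := diffAt (hfc2 i) x
      rw [pd_congr (e1 i) i x, e1 i x, pd_const_mul (d1.fun_add d2), pd_add d1 d2]
      ring
    set g : (Fin n → ℝ) → ℝ := fun x => (D x - h x) ^ 2 * Real.exp (-Ψ x) with hg
    have hcexp : Continuous fun x => Real.exp (-Ψ x) := (hΨ.continuous.neg).rexp
    have hgi : Integrable g := by
      have i1 : Integrable (fun x => D x * (D x - 2 * h x) * Real.exp (-Ψ x)) := by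
        apply Continuous.integrable_of_hasCompactSupport
        · exact (hDc.mul (hDc.sub (continuous_const.mul hh))).mul hcexp
        · exact (hDs.mul_right).mul_right
      have i2 := i1.add hh2
      refine i2.congr (Filter.Eventually.of_forall fun x => ?_)
      simp only [Pi.add_apply, hg]
      ring
    have hgn : Integrable (fun x => g (-x)) := hgi.comp_neg
    have hgneg : ∫ x, g (-x) = ∫ x, g x := integral_neg_eq_self g volume
    have hle : ∀ x, (dv Ψ (fld b fun x => (1 / 2) * (u x + u (-x))) x - h x) ^ 2 * Real.exp (-Ψ x)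
        ≤ (1 / 2) * g x + (1 / 2) * g (-x) := by
      intro x
      rw [e2 x]
      simp only [hg]
      rw [hΨe, hhe]
      have hp := (Real.exp_pos (-Ψ x)).le
      have h1 : ((1 / 2) * (D x + D (-x)) - h x) ^ 2
          ≤ (1 / 2) * (D x - h x) ^ 2 + (1 / 2) * (D (-x) - h x) ^ 2 := by
        nlinarith [sq_nonneg (D x - D (-x))]
      nlinarith [mul_le_mul_of_nonneg_right h1 hp]
    have hI := integral_mono_of_nonneg (Filter.Eventually.of_forall fun x =>
        mul_nonneg (sq_nonneg (dv Ψ (fld b fun x => (1 / 2) * (u x + u (-x))) x - h x))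
          (Real.exp_pos (-Ψ x)).le)
      ((hgi.const_mul (1 / 2)).add (hgn.const_mul (1 / 2)))
      (Filter.Eventually.of_forall hle)
    refine hI.trans ?_
    have e3 : ∫ x, ((fun x => (1 / 2) * g x) + fun x => (1 / 2) * g (-x)) x
        = ∫ x, g x := by
      have : ∫ x, ((fun x => (1 / 2) * g x) + fun x => (1 / 2) * g (-x)) x
          = (∫ x, (1 / 2) * g x) + ∫ x, (1 / 2) * g (-x) :=
        integral_add (hgi.const_mul (1 / 2)) (hgn.const_mul (1 / 2))
      rw [this, integral_const_mul, integral_const_mul, hgneg]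
      ring
    rw [e3]
    exact hue

end H1
end Pool.Agent.Lib.MP_2d002d_gt
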